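import Mathlib

/-!
Exchange of subspaces and scales.  At every scale `k` let `s` subspaces `U k i` of dimension at most
`d` be given, which contain a fixed vector `v`.  Then there are boundedly many subspaces of
dimension at most `d` containing `v` such that every vector outside of them lies in the `U k i` for
few `k`, along a fixed sequence of initial segments of the scales.
-/

set_option autoImplicit false

open Filter Finset

namespace Pool.Agent.H34.LG

variable {F V : Type} [Field F] [AddCommGroup V] [Module F V] [FiniteDimensional F V]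

open Classical in
/-- the number of scales `k < K` at which `L` is contained in a subspace -/
noncomputable def cn {s : ℕ} (U : ℕ → Fin s → Submodule F V) (L : Submodule F V) (K : ℕ) : ℝ :=
  (((range K).filter (fun k => ∃ i, L ≤ U k i)).card : ℝ)

open Classical in
omit [FiniteDimensional F V] in
theorem cn_pair {s : ℕ} (U : ℕ → Fin s → Submodule F V) (S : Finset (Submodule F V)) (K : ℕ) :
    (∑ L ∈ S, cn U L K) ^ 2 ≤ (s : ℝ) ^ 2 * K * ∑ L ∈ S, ∑ L' ∈ S, cn U (L ⊔ L') K := by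
  set n : ℕ × Fin s → ℝ := fun x => ((S.filter (fun L => L ≤ U x.1 x.2)).card : ℝ) with hn
  set X : Finset (ℕ × Fin s) := range K ×ˢ univ with hX
  have hcX : (X.card : ℝ) = K * s := by
    rw [hX, card_product, card_range, card_univ, Fintype.card_fin]
    push_cast
    ring
  have h1 : ∑ L ∈ S, cn U L K ≤ ∑ x ∈ X, n x := by
    have h2 : ∀ L ∈ S, cn U L K ≤ ∑ x ∈ X, if L ≤ U x.1 x.2 then (1 : ℝ) else 0 := by
      intro L _
      rw [hX, sum_product]
      have h3 : cn U L K = ∑ k ∈ range K, if ∃ i, L ≤ U k i then (1 : ℝ) else 0 := by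
        unfold cn
        rw [← sum_filter, sum_const, nsmul_eq_mul, mul_one]
      rw [h3]
      refine sum_le_sum ?_
      intro k _
      split_ifs with hk
      · obtain ⟨i, hi⟩ := hk
        have h4 : (if L ≤ U (k, i).1 (k, i).2 then (1 : ℝ) else 0) ≤
            ∑ y : Fin s, if L ≤ U (k, y).1 (k, y).2 then (1 : ℝ) else 0 := by
          refine single_le_sum (f := fun y : Fin s =>
            if L ≤ U (k, y).1 (k, y).2 then (1 : ℝ) else 0) ?_ (mem_univ i)
          intro y _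
          positivity
        rwa [if_pos hi] at h4
      · refine sum_nonneg ?_
        intro y _
        positivity
    refine (sum_le_sum h2).trans (le_of_eq ?_)
    rw [sum_comm]
    refine sum_congr rfl ?_
    intro x _
    rw [hn, ← sum_filter, sum_const, nsmul_eq_mul, mul_one]
  have h5 : (∑ x ∈ X, n x) ^ 2 ≤ X.card * ∑ x ∈ X, n x ^ 2 := sq_sum_le_card_mul_sum_sq
  have h6 : ∑ x ∈ X, n x ^ 2 ≤ s * ∑ L ∈ S, ∑ L' ∈ S, cn U (L ⊔ L') K := by
    have h7 : ∀ x ∈ X, n x ^ 2 = ∑ L ∈ S, ∑ L' ∈ S, if L ⊔ L' ≤ U x.1 x.2 then (1 : ℝ) else 0 := by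
      intro x _
      have h8 : n x = ∑ L ∈ S, if L ≤ U x.1 x.2 then (1 : ℝ) else 0 := by
        rw [hn, ← sum_filter, sum_const, nsmul_eq_mul, mul_one]
      rw [h8, sq, sum_mul_sum]
      refine sum_congr rfl fun L _ => sum_congr rfl fun L' _ => ?_
      by_cases hL : L ≤ U x.1 x.2 <;> by_cases hL' : L' ≤ U x.1 x.2 <;> simp [hL, hL']
    rw [sum_congr rfl h7, sum_comm, mul_sum]
    refine sum_le_sum fun L _ => ?_
    rw [sum_comm, mul_sum]
    refine sum_le_sum fun L' _ => ?_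
    rw [hX, sum_product]
    have h9 : cn U (L ⊔ L') K = ∑ k ∈ range K, if ∃ i, L ⊔ L' ≤ U k i then (1 : ℝ) else 0 := by
      unfold cn
      rw [← sum_filter, sum_const, nsmul_eq_mul, mul_one]
    rw [h9, mul_sum]
    refine sum_le_sum fun k _ => ?_
    split_ifs with hk
    · calc ∑ y : Fin s, (if L ⊔ L' ≤ U (k, y).1 (k, y).2 then (1 : ℝ) else 0)
          ≤ ∑ _y : Fin s, (1 : ℝ) := by
            refine sum_le_sum fun y _ => ?_
            split_ifs <;> norm_num
        _ = (s : ℝ) * 1 := by simp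
    · rw [mul_zero]
      refine le_of_eq (sum_eq_zero ?_)
      intro y _
      rw [if_neg]
      intro hy
      exact hk ⟨y, hy⟩
  have h10 : 0 ≤ ∑ L ∈ S, cn U L K := by
    refine sum_nonneg ?_
    intro L _
    unfold cn
    positivity
  calc (∑ L ∈ S, cn U L K) ^ 2 ≤ (∑ x ∈ X, n x) ^ 2 := by gcongr
    _ ≤ X.card * ∑ x ∈ X, n x ^ 2 := h5
    _ ≤ X.card * (s * ∑ L ∈ S, ∑ L' ∈ S, cn U (L ⊔ L') K) := by gcongr
    _ = (s : ℝ) ^ 2 * K * ∑ L ∈ S, ∑ L' ∈ S, cn U (L ⊔ L') K := by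
        rw [hcX]
        ring

open Classical in
omit [FiniteDimensional F V] in
/-- limits along the hyperfilter -/
theorem exists_lim {s : ℕ} (U : ℕ → Fin s → Submodule F V) :
    ∃ p : Submodule F V → ℝ, ∀ L,
      Tendsto (fun K : ℕ => cn U L K / K) (hyperfilter ℕ : Filter ℕ) (nhds (p L)) := by
  have h : ∀ L : Submodule F V, ∃ x : ℝ,
      Tendsto (fun K : ℕ => cn U L K / K) (hyperfilter ℕ : Filter ℕ) (nhds x) := by
    intro L
    have hc : IsCompact (Set.Icc (0 : ℝ) 1) := isCompact_Icc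
    have hm : ∀ K : ℕ, cn U L K / K ∈ Set.Icc (0 : ℝ) 1 := by
      intro K
      have h0 : 0 ≤ cn U L K := by
        unfold cn
        positivity
      have h1 : cn U L K ≤ K := by
        unfold cn
        have := card_filter_le (range K) (fun k => ∃ i, L ≤ U k i)
        rw [card_range] at this
        exact_mod_cast this
      exact ⟨by positivity, div_le_one_of_le₀ h1 (by positivity)⟩
    have := hc.ultrafilter_le_nhds ((hyperfilter ℕ).map (fun K : ℕ => cn U L K / K)) (by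
      rw [Ultrafilter.coe_map, le_principal_iff, Filter.mem_map]
      exact Filter.univ_mem' hm)
    obtain ⟨x, _, hx⟩ := this
    exact ⟨x, hx⟩
  choose p hp using h
  exact ⟨p, hp⟩

omit [FiniteDimensional F V] in
theorem cn_nonneg {s : ℕ} (U : ℕ → Fin s → Submodule F V) (L : Submodule F V) (K : ℕ) :
    0 ≤ cn U L K := by
  unfold cn
  positivity

open Classical in
omit [FiniteDimensional F V] in
theorem cn_le {s : ℕ} (U : ℕ → Fin s → Submodule F V) (L : Submodule F V) (K : ℕ) :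
    cn U L K ≤ K := by
  unfold cn
  have := card_filter_le (range K) (fun k => ∃ i, L ≤ U k i)
  rw [card_range] at this
  exact_mod_cast this

/-- The inductive statement: for a function `p` on subspaces with the pair inequality, which
vanishes in dimensions above `d`, the subspaces of dimension at least `j` with `p ≥ δ` lie in
boundedly many subspaces of dimension at most `d`. -/
def Cov (d j : ℕ) (s : ℝ) : Prop := ∀ δ : ℝ, 0 < δ → ∃ N : ℕ,
  ∀ (F V : Type) [Field F] [AddCommGroup V] [Module F V] [FiniteDimensional F V]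
    (v : V) (p : Submodule F V → ℝ),
    (∀ S : Finset (Submodule F V),
      (∑ L ∈ S, p L) ^ 2 ≤ s ^ 2 * ∑ L ∈ S, ∑ L' ∈ S, p (L ⊔ L')) →
    (∀ L, 0 ≤ p L ∧ p L ≤ 1) → (∀ L : Submodule F V, d < Module.finrank F L → p L = 0) →
    ∃ A : Finset (Submodule F V), A.card ≤ N ∧
      (∀ U ∈ A, Module.finrank F U ≤ d ∧ v ∈ U) ∧
      ∀ L : Submodule F V, v ∈ L → j ≤ Module.finrank F L → δ ≤ p L → ∃ U ∈ A, L ≤ U

theorem cov_top (d : ℕ) (s : ℝ) : Cov d (d + 1) s := by
  intro δ hδ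
  refine ⟨0, ?_⟩
  intro F V _ _ _ _ v p _ _ h3
  refine ⟨∅, by simp, by simp, ?_⟩
  intro L _ hL hp
  rw [h3 L (by omega)] at hp
  exact absurd hp (not_le.2 hδ)

theorem cov_step (d j : ℕ) (s : ℝ) (hs : 0 < s) (hj : j ≤ d) (h : Cov d (j + 1) s) :
    Cov d j s := by
  intro δ hδ
  obtain ⟨N, hN⟩ := h (δ ^ 2 / (2 * s ^ 2)) (by positivity)
  obtain ⟨n0, hn0⟩ := exists_nat_gt (2 * s ^ 2 / δ ^ 2)
  obtain ⟨N2, hN2⟩ := h δ hδ
  refine ⟨N + N2 + n0, ?_⟩
  intro F V _ _ _ _ v p h1 h2 h3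
  classical
  obtain ⟨A, hA1, hA2, hA3⟩ := hN F V v p h1 h2 h3
  obtain ⟨A2, hA21, hA22, hA23⟩ := hN2 F V v p h1 h2 h3
  set T : Set (Submodule F V) := {L | v ∈ L ∧ Module.finrank F L = j ∧ δ ≤ p L ∧
    ∀ U ∈ A, ¬ L ≤ U} with hT
  have hbound : ∀ S : Finset (Submodule F V), (S : Set (Submodule F V)) ⊆ T →
      S.card ≤ n0 := by
    intro S hS
    have hmem : ∀ L ∈ S, v ∈ L ∧ Module.finrank F L = j ∧ δ ≤ p L ∧ ∀ U ∈ A, ¬ L ≤ U :=
      fun L hL => hS (mem_coe.2 hL)
    have e1 : (S.card : ℝ) * δ ≤ ∑ L ∈ S, p L := by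
      rw [← nsmul_eq_mul]
      exact card_nsmul_le_sum S p δ (fun L hL => (hmem L hL).2.2.1)
    have e2 : ∀ L ∈ S, ∑ L' ∈ S, p (L ⊔ L') ≤ 1 + S.card * (δ ^ 2 / (2 * s ^ 2)) := by
      intro L hL
      rw [← sum_erase_add _ _ hL]
      have e3 : ∑ L' ∈ S.erase L, p (L ⊔ L') ≤ ∑ _L' ∈ S.erase L, δ ^ 2 / (2 * s ^ 2) := by
        refine sum_le_sum ?_
        intro L' hL'
        rw [mem_erase] at hL'
        by_contra hcon
        rw [not_le] at hcon
        have e4 : j + 1 ≤ Module.finrank F (L ⊔ L' : Submodule F V) := by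
          have e5 : L < L ⊔ L' := by
            refine lt_of_le_of_ne le_sup_left ?_
            intro heq
            have e6 : L' ≤ L := by
              rw [heq]
              exact le_sup_right
            have e7 := Submodule.eq_of_le_of_finrank_eq e6
              ((hmem L' hL'.2).2.1.trans (hmem L hL).2.1.symm)
            exact hL'.1 e7
          have e8 := Submodule.finrank_lt_finrank_of_lt e5
          rw [(hmem L hL).2.1] at e8
          exact e8
        obtain ⟨U, hU, hLU⟩ := hA3 (L ⊔ L') (Submodule.mem_sup_left (hmem L hL).1) e4 hcon.le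
        exact (hmem L hL).2.2.2 U hU (le_sup_left.trans hLU)
      have e9 : ∑ _L' ∈ S.erase L, δ ^ 2 / (2 * s ^ 2) ≤ S.card * (δ ^ 2 / (2 * s ^ 2)) := by
        rw [sum_const, nsmul_eq_mul]
        refine mul_le_mul_of_nonneg_right ?_ (by positivity)
        exact_mod_cast card_le_card (erase_subset _ _)
      have e10 := (h2 (L ⊔ L)).2
      linarith
    have e11 : ∑ L ∈ S, ∑ L' ∈ S, p (L ⊔ L') ≤
        S.card * (1 + S.card * (δ ^ 2 / (2 * s ^ 2))) := by
      refine (sum_le_sum e2).trans (le_of_eq ?_)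
      rw [sum_const, nsmul_eq_mul]
    have e12 : ((S.card : ℝ) * δ) ^ 2 ≤
        s ^ 2 * (S.card * (1 + S.card * (δ ^ 2 / (2 * s ^ 2)))) := by
      calc ((S.card : ℝ) * δ) ^ 2 ≤ (∑ L ∈ S, p L) ^ 2 := by gcongr
        _ ≤ s ^ 2 * ∑ L ∈ S, ∑ L' ∈ S, p (L ⊔ L') := h1 S
        _ ≤ s ^ 2 * (S.card * (1 + S.card * (δ ^ 2 / (2 * s ^ 2)))) := by gcongr
    have e13 : s ^ 2 * (S.card * (1 + S.card * (δ ^ 2 / (2 * s ^ 2)))) =
        s ^ 2 * S.card + ((S.card : ℝ) * δ) ^ 2 / 2 := by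
      field_simp
    rw [e13] at e12
    have e14 : (S.card : ℝ) * (S.card * δ ^ 2) ≤ S.card * (2 * s ^ 2) := by
      have : ((S.card : ℝ) * δ) ^ 2 = S.card * (S.card * δ ^ 2) := by ring
      linarith
    rcases Nat.eq_zero_or_pos S.card with h0 | h0
    · omega
    have e15 : (S.card : ℝ) * δ ^ 2 ≤ 2 * s ^ 2 :=
      le_of_mul_le_mul_left e14 (by exact_mod_cast h0)
    have e16 : (S.card : ℝ) ≤ 2 * s ^ 2 / δ ^ 2 := by
      rw [le_div_iff₀ (by positivity)]
      exact e15
    have e17 : (S.card : ℝ) < n0 := lt_of_le_of_lt e16 hn0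
    exact_mod_cast e17.le
  have hfin : T.Finite := by
    by_contra hinf
    obtain ⟨S, hS1, hS2⟩ := Set.Infinite.exists_subset_card_eq hinf (n0 + 1)
    have := hbound S hS1
    omega
  refine ⟨A ∪ A2 ∪ hfin.toFinset, ?_, ?_, ?_⟩
  · have e1 := card_union_le (A ∪ A2) hfin.toFinset
    have e2 := card_union_le A A2
    have e3 := hbound hfin.toFinset (by simp)
    omega
  · intro U hU
    rw [mem_union, mem_union, Set.Finite.mem_toFinset] at hU
    rcases hU with (hU | hU) | hU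
    · exact hA2 U hU
    · exact hA22 U hU
    · exact ⟨hU.2.1 ▸ hj, hU.1⟩
  · intro L hvL hL hp
    rcases Nat.eq_or_lt_of_le hL with hjL | hjL
    · by_cases hc : ∃ U ∈ A, L ≤ U
      · obtain ⟨U, hU, hLU⟩ := hc
        exact ⟨U, by simp [hU], hLU⟩
      · push Not at hc
        refine ⟨L, ?_, le_refl L⟩
        rw [mem_union, Set.Finite.mem_toFinset]
        exact Or.inr ⟨hvL, hjL.symm, hp, hc⟩
    · obtain ⟨U, hU, hLU⟩ := hA23 L hvL hjL hp
      exact ⟨U, by simp [hU], hLU⟩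

theorem cov_all (d : ℕ) (s : ℝ) (hs : 0 < s) : ∀ i ≤ d + 1, Cov d (d + 1 - i) s := by
  intro i
  induction i with
  | zero =>
    intro _
    simpa using cov_top d s
  | succ i ih =>
    intro hi
    have h1 := ih (by omega)
    have h2 : d + 1 - i = (d + 1 - (i + 1)) + 1 := by omega
    rw [h2] at h1
    exact cov_step d _ s hs (by omega) h1

open Classical in
/-- The exchange of subspaces and scales. -/
theorem cover_exchange (d s : ℕ) (δ : ℝ) (hδ : 0 < δ) : ∃ N : ℕ,
    ∀ (F V : Type) [Field F] [AddCommGroup V] [Module F V] [FiniteDimensional F V]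
      (v : V) (U : ℕ → Fin s → Submodule F V),
      (∀ k i, Module.finrank F (U k i) ≤ d) →
      ∃ (A : Finset (Submodule F V)), A.card ≤ N ∧
        (∀ W ∈ A, Module.finrank F W ≤ d ∧ v ∈ W) ∧
        ∀ (J : Type) [Countable J] (w : J → V), (∀ x, ∀ W ∈ A, w x ∉ W) →
        ∃ κ : ℕ → ℕ, Tendsto κ atTop atTop ∧ ∀ x, ∀ᶠ t in atTop,
          (((range (κ t)).filter (fun k => ∃ i, v ∈ U k i ∧ w x ∈ U k i)).card : ℝ) ≤
            δ * κ t := by
  obtain ⟨N, hN⟩ := cov_all d ((s : ℝ) + 1) (by positivity) (d + 1) le_rfl δ hδ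
  refine ⟨N, ?_⟩
  intro F V _ _ _ _ v U hU
  obtain ⟨p, hp⟩ := exists_lim U
  have hle : (hyperfilter ℕ : Filter ℕ) ≤ atTop := Nat.hyperfilter_le_atTop
  have hpair : ∀ S : Finset (Submodule F V),
      (∑ L ∈ S, p L) ^ 2 ≤ ((s : ℝ) + 1) ^ 2 * ∑ L ∈ S, ∑ L' ∈ S, p (L ⊔ L') := by
    intro S
    have t1 : Tendsto (fun K : ℕ => (∑ L ∈ S, cn U L K / K) ^ 2) (hyperfilter ℕ : Filter ℕ)
        (nhds ((∑ L ∈ S, p L) ^ 2)) := (tendsto_finsetSum S (fun L _ => hp L)).pow 2
    have t2 : Tendsto (fun K : ℕ => ((s : ℝ) + 1) ^ 2 * ∑ L ∈ S, ∑ L' ∈ S, cn U (L ⊔ L') K / K)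
        (hyperfilter ℕ : Filter ℕ)
        (nhds (((s : ℝ) + 1) ^ 2 * ∑ L ∈ S, ∑ L' ∈ S, p (L ⊔ L'))) :=
      (tendsto_finsetSum S (fun L _ => tendsto_finsetSum S (fun L' _ => hp (L ⊔ L')))).const_mul _
    refine le_of_tendsto_of_tendsto t1 t2 ?_
    refine hle (eventually_atTop.2 ⟨1, fun K hK => ?_⟩)
    have hK0 : (0 : ℝ) < K := by exact_mod_cast hK
    have e1 := cn_pair U S K
    simp only [← sum_div]
    rw [div_pow, div_le_iff₀ (by positivity)]
    calc (∑ L ∈ S, cn U L K) ^ 2 ≤ (s : ℝ) ^ 2 * K * ∑ L ∈ S, ∑ L' ∈ S, cn U (L ⊔ L') K := e1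
      _ ≤ ((s : ℝ) + 1) ^ 2 * K * ∑ L ∈ S, ∑ L' ∈ S, cn U (L ⊔ L') K := by
          refine mul_le_mul_of_nonneg_right ?_
            (sum_nonneg fun L _ => sum_nonneg fun L' _ => cn_nonneg _ _ _)
          refine mul_le_mul_of_nonneg_right ?_ hK0.le
          gcongr
          linarith
      _ = ((s : ℝ) + 1) ^ 2 * ((∑ L ∈ S, ∑ L' ∈ S, cn U (L ⊔ L') K) / K) * K ^ 2 := by
          field_simp
  have hp01 : ∀ L, 0 ≤ p L ∧ p L ≤ 1 := by
    intro L
    constructor
    · refine ge_of_tendsto (hp L) (Eventually.of_forall fun K => ?_)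
      exact div_nonneg (cn_nonneg _ _ _) (by positivity)
    · refine le_of_tendsto (hp L) (Eventually.of_forall fun K => ?_)
      exact div_le_one_of_le₀ (cn_le _ _ _) (by positivity)
  have hp0 : ∀ L : Submodule F V, d < Module.finrank F L → p L = 0 := by
    intro L hL
    have h0 : ∀ K, cn U L K = 0 := by
      intro K
      unfold cn
      rw [Nat.cast_eq_zero, card_eq_zero, filter_eq_empty_iff]
      intro k _
      rintro ⟨i, hi⟩
      have := Submodule.finrank_mono hi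
      have := hU k i
      omega
    have := hp L
    simp only [h0, zero_div] at this
    exact tendsto_nhds_unique this tendsto_const_nhds
  obtain ⟨A, hA1, hA2, hA3⟩ := hN F V v p hpair hp01 hp0
  refine ⟨A, hA1, hA2, ?_⟩
  intro J _ w hw
  have hlt : ∀ x, p (Submodule.span F {v, w x}) < δ := by
    intro x
    by_contra hcon
    rw [not_lt] at hcon
    obtain ⟨W, hW, hle⟩ := hA3 (Submodule.span F {v, w x})
      (Submodule.subset_span (by simp)) (by simp) hcon
    exact hw x W hW (hle (Submodule.subset_span (by simp)))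
  set Q : J → Set ℕ := fun x => {K : ℕ |
    (((range K).filter (fun k => ∃ i, v ∈ U k i ∧ w x ∈ U k i)).card : ℝ) ≤ δ * K} with hQ
  have hQm : ∀ x, Q x ∈ (hyperfilter ℕ : Filter ℕ) := by
    intro x
    have h1 := (hp (Submodule.span F {v, w x})).eventually (gt_mem_nhds (hlt x))
    have h2 := h1.and (hle (eventually_gt_atTop 0))
    refine Filter.mem_of_superset h2 ?_
    rintro K ⟨hK, hK0⟩
    have hK0' : (0 : ℝ) < K := by exact_mod_cast hK0
    simp only [hQ, Set.mem_ofPred_eq]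
    rw [div_lt_iff₀ hK0'] at hK
    refine le_trans (le_of_eq ?_) hK.le
    unfold cn
    congr 2
    refine filter_congr fun k _ => ?_
    refine exists_congr fun i => ?_
    rw [Submodule.span_le, Set.insert_subset_iff, Set.singleton_subset_iff]
    rfl
  have hne : (atTop ⊓ ⨅ x, 𝓟 (Q x) : Filter ℕ).NeBot := by
    refine neBot_of_le (f := (hyperfilter ℕ : Filter ℕ)) (le_inf hle ?_)
    refine le_iInf fun x => ?_
    rw [le_principal_iff]
    exact hQm x
  obtain ⟨κ, hκ⟩ := exists_seq_tendsto (atTop ⊓ ⨅ x, 𝓟 (Q x) : Filter ℕ)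
  refine ⟨κ, hκ.mono_right inf_le_left, ?_⟩
  intro x
  have h1 : Tendsto κ atTop (𝓟 (Q x)) := hκ.mono_right (inf_le_right.trans (iInf_le _ x))
  exact tendsto_principal.1 h1

end Pool.Agent.H34.LG
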